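import Pool.Agent.Y890.HE.Main

/-!
# Conjugates of algebraic points on hypersurfaces
-/

set_option autoImplicit false

open NumberField Module

namespace Pool.Agent.X265.WR

open Pool.Agent.Y890.MV

/-- substitution of linear forms -/
lemma deg_lin {X Y : Type} (f : X → MvPolynomial Y ℂ) (hf : ∀ x, (f x).totalDegree ≤ 1) (P : MvPolynomial X ℂ) :
    (MvPolynomial.aeval f P).totalDegree ≤ P.totalDegree := by
  classical
  rw [MvPolynomial.aeval_def, MvPolynomial.eval₂_eq]
  refine (MvPolynomial.totalDegree_finsetSum _ _).trans (Finset.sup_le fun s hs => ?_)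
  refine (MvPolynomial.totalDegree_mul _ _).trans ?_
  have h1 : (algebraMap ℂ (MvPolynomial Y ℂ) (P.coeff s)).totalDegree = 0 := MvPolynomial.totalDegree_C _
  rw [h1, zero_add]
  refine (MvPolynomial.totalDegree_finsetProd _ _).trans ?_
  refine le_trans ?_ (MvPolynomial.le_totalDegree hs)
  refine Finset.sum_le_sum fun i _ => ?_
  refine (MvPolynomial.totalDegree_pow _ _).trans ?_
  exact (Nat.mul_le_mul_left _ (hf i)).trans (by rw [mul_one])

variable (L : Type) [Field L] [NumberField L]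

/-- the conjugates `σ (e (π σ r))` -/
def conj (n : ℕ) (e : Fin (n + 1) → L) (π : (L →+* ℂ) → Equiv.Perm (Fin (n + 1))) :
    (Σ _ : L →+* ℂ, Fin (n + 1)) → ℂ := fun q => q.1 (e (π q.1 q.2))

/-- the coordinates of the integers -/
lemma repr_bound : ∃ C : ℝ, 1 ≤ C ∧ ∀ (b : 𝓞 L) (i : Free.ChooseBasisIndex ℤ (𝓞 L)),
    ‖(((integralBasis L).repr (b : L) i : ℚ) : ℂ)‖ ≤ C * house (b : L) := by
  classical
  have h : ∀ i : Free.ChooseBasisIndex ℤ (𝓞 L), ∃ C : ℝ, 0 ≤ C ∧ ∀ x : (L →+* ℂ) → ℂ,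
      ‖(canonicalEmbedding.latticeBasis L).repr x i‖ ≤ C * ‖x‖ := by
    intro i
    set φ : ((L →+* ℂ) → ℂ) →ₗ[ℂ] ℂ := (canonicalEmbedding.latticeBasis L).coord i with hφ
    refine ⟨‖LinearMap.toContinuousLinearMap φ‖, (LinearMap.toContinuousLinearMap φ).opNorm_nonneg, fun x => ?_⟩
    exact (LinearMap.toContinuousLinearMap φ).le_opNorm x
  choose C hC hC' using h
  refine ⟨1 + ∑ i, C i, ?_, fun b i => ?_⟩
  · have : 0 ≤ ∑ i, C i := Finset.sum_nonneg fun i _ => hC i
    linarith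
  · rw [← canonicalEmbedding.integralBasis_repr_apply]
    refine (hC' i _).trans ?_
    show C i * house (b : L) ≤ _
    refine mul_le_mul_of_nonneg_right ?_ (norm_nonneg _)
    have := Finset.single_le_sum (f := C) (fun i _ => hC i) (Finset.mem_univ i)
    linarith

/-- **Few points with conjugates on a hypersurface.** -/
theorem count (n : ℕ) : ∃ C : ℝ, 1 ≤ C ∧ ∀ (π : (L →+* ℂ) → Equiv.Perm (Fin (n + 1))) (q : ℕ), 1 ≤ q →
    ∀ P : MvPolynomial (Σ _ : L →+* ℂ, Fin (n + 1)) ℂ, P ≠ 0 → ∀ T : ℝ, 1 ≤ T →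
      {b : Fin (n + 1) → 𝓞 L | (∀ r, house (b r : L) ≤ T) ∧
        MvPolynomial.eval (conj L n (fun r => (b r : L) / q) π) P = 0}.Finite ∧
      (({b : Fin (n + 1) → 𝓞 L | (∀ r, house (b r : L) ≤ T) ∧
        MvPolynomial.eval (conj L n (fun r => (b r : L) / q) π) P = 0}.ncard : ℕ) : ℝ) ≤
          C * P.totalDegree * T ^ (finrank ℚ L * (n + 1) - 1) := by
  classical
  obtain ⟨C, hC, hCb⟩ := repr_bound L
  set I := Free.ChooseBasisIndex ℤ (𝓞 L) with hI
  have hcardI : Fintype.card I = finrank ℚ L := (finrank_eq_card_basis (integralBasis L)).symm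
  refine ⟨(3 * C) ^ (finrank ℚ L * (n + 1) - 1), one_le_pow₀ (by linarith), ?_⟩
  intro π q hq P hP T hT
  have hqc : (q : ℂ) ≠ 0 := by
    have : q ≠ 0 := by omega
    exact_mod_cast this
  -- the substitution
  set F : (Σ _ : L →+* ℂ, Fin (n + 1)) → MvPolynomial (Fin (n + 1) × I) ℂ := fun x =>
    ∑ i, MvPolynomial.C (x.1 (integralBasis L i) / q) * MvPolynomial.X (π x.1 x.2, i) with hF
  have hFd : ∀ x, (F x).totalDegree ≤ 1 := by
    intro x
    refine (MvPolynomial.totalDegree_finsetSum _ _).trans (Finset.sup_le fun i _ => ?_)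
    refine (MvPolynomial.totalDegree_mul _ _).trans ?_
    rw [MvPolynomial.totalDegree_C, zero_add, MvPolynomial.totalDegree_X]
  set P' : MvPolynomial (Fin (n + 1) × I) ℂ := MvPolynomial.aeval F P with hP'
  have hev : ∀ a : Fin (n + 1) × I → ℂ, MvPolynomial.eval a P' =
      MvPolynomial.eval (fun x : (Σ _ : L →+* ℂ, Fin (n + 1)) => ∑ i, x.1 (integralBasis L i) / q * a (π x.1 x.2, i)) P := by
    intro a
    rw [hP', MvPolynomial.aeval_def, MvPolynomial.hom_eval₂]
    have h1 : (MvPolynomial.eval a).comp (algebraMap ℂ (MvPolynomial (Fin (n + 1) × I) ℂ)) = RingHom.id ℂ := by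
      ext x
      simp [MvPolynomial.algebraMap_eq]
    rw [h1, MvPolynomial.eval₂_id]
    congr 2
    funext x
    rw [hF]
    simp
  have hP'0 : P' ≠ 0 := by
    intro h0
    apply hP
    refine MvPolynomial.funext fun y => ?_
    rw [map_zero]
    set z : Fin (n + 1) → (L →+* ℂ) → ℂ := fun s σ => (q : ℂ) * y ⟨σ, (π σ).symm s⟩ with hz
    have h1 := hev fun p => (canonicalEmbedding.latticeBasis L).repr (z p.1) p.2
    rw [h0, map_zero] at h1
    rw [h1]
    congr 2
    funext x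
    obtain ⟨σ, r⟩ := x
    have h2 := congrFun ((canonicalEmbedding.latticeBasis L).sum_repr (z (π σ r))) σ
    rw [Finset.sum_apply] at h2
    have h3 : z (π σ r) σ = q * y ⟨σ, r⟩ := by
      rw [hz]
      simp
    rw [h3] at h2
    have h4 : y ⟨σ, r⟩ = (q : ℂ)⁻¹ * (q * y ⟨σ, r⟩) := by field_simp
    rw [h4, ← h2, Finset.mul_sum]
    refine Finset.sum_congr rfl fun i _ => ?_
    rw [Pi.smul_apply, canonicalEmbedding.latticeBasis_apply, smul_eq_mul]
    show _ = σ (integralBasis L i) / q * _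
    have h5 : canonicalEmbedding L (integralBasis L i) σ = σ (integralBasis L i) := rfl
    rw [h5]
    ring
  -- the box
  set B : Set ℚ := (fun z : ℤ => (z : ℚ)) '' Set.Icc (-⌊C * T⌋) ⌊C * T⌋ with hB
  have hBf : B.Finite := (Set.finite_Icc _ _).image _
  have hCT : 1 ≤ C * T := by nlinarith
  have hfl : (1 : ℤ) ≤ ⌊C * T⌋ := Int.le_floor.2 (by exact_mod_cast hCT)
  have hBc : (B.ncard : ℝ) ≤ 3 * C * T := by
    have h1 : B.ncard ≤ (Set.Icc (-⌊C * T⌋) ⌊C * T⌋).ncard := Set.ncard_image_le (Set.finite_Icc _ _)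
    have h2 : (Set.Icc (-⌊C * T⌋) ⌊C * T⌋).ncard = (2 * ⌊C * T⌋ + 1).toNat := by
      rw [← Finset.coe_Icc, Set.ncard_coe_finset, Int.card_Icc]
      congr 1
      ring
    have h3 : ((2 * ⌊C * T⌋ + 1).toNat : ℝ) = 2 * (⌊C * T⌋ : ℝ) + 1 := by
      have : ((2 * ⌊C * T⌋ + 1).toNat : ℤ) = 2 * ⌊C * T⌋ + 1 := Int.toNat_of_nonneg (by omega)
      exact_mod_cast congrArg (fun z : ℤ => (z : ℝ)) this
    have h4 : (⌊C * T⌋ : ℝ) ≤ C * T := Int.floor_le _
    have h5 : (B.ncard : ℝ) ≤ ((2 * ⌊C * T⌋ + 1).toNat : ℝ) := by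
      rw [← h2]
      exact_mod_cast h1
    rw [h3] at h5
    linarith
  have : Nonempty (Fin (n + 1) × I) := by
    have h1 : 0 < Fintype.card (Fin (n + 1) × I) := by
      rw [Fintype.card_prod, hcardI, Fintype.card_fin]
      exact Nat.mul_pos (Nat.succ_pos _) finrank_pos
    exact Fintype.card_pos_iff.1 h1
  set E : Set (Fin (n + 1) → 𝓞 L) := {b | (∀ r, house (b r : L) ≤ T) ∧
    MvPolynomial.eval (conj L n (fun r => (b r : L) / q) π) P = 0} with hE
  have hsz := sz_count' P' hP'0 (algebraMap ℚ ℂ) B hBf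
  have hcardX : Fintype.card (Fin (n + 1) × I) = finrank ℚ L * (n + 1) := by
    rw [Fintype.card_prod, hcardI, Fintype.card_fin, mul_comm]
  rw [hcardX] at hsz
  set Z : Set (Fin (n + 1) × I → ℚ) := {s | (∀ j, s j ∈ B) ∧ MvPolynomial.eval (fun j => (algebraMap ℚ ℂ) (s j)) P' = 0} with hZ
  have hZf : Z.Finite := (Set.Finite.pi' (fun _ : Fin (n + 1) × I => hBf)).subset fun s hs => hs.1
  set g : (Fin (n + 1) → 𝓞 L) → (Fin (n + 1) × I → ℚ) := fun b p => (integralBasis L).repr (b p.1 : L) p.2 with hg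
  have hgi : Function.Injective g := by
    intro b b' h
    funext r
    apply RingOfIntegers.ext
    apply (integralBasis L).repr.injective
    ext i
    exact congrFun h (r, i)
  have hmap : ∀ b ∈ E, g b ∈ Z := by
    rintro b ⟨hb1, hb2⟩
    constructor
    · rintro ⟨r, i⟩
      refine ⟨(RingOfIntegers.basis L).repr (b r) i, ?_, ?_⟩
      · have h1 := hCb (b r) i
        rw [integralBasis_repr_apply] at h1
        have h2 : ‖((((algebraMap ℤ ℚ) ((RingOfIntegers.basis L).repr (b r) i) : ℚ)) : ℂ)‖ =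
            |(((RingOfIntegers.basis L).repr (b r) i : ℤ) : ℝ)| := by
          simp
        rw [h2] at h1
        have h3 : |(((RingOfIntegers.basis L).repr (b r) i : ℤ) : ℝ)| ≤ C * T :=
          h1.trans (mul_le_mul_of_nonneg_left (hb1 r) (by linarith))
        rw [abs_le] at h3
        rw [Set.mem_Icc]
        constructor
        · rw [neg_le]
          apply Int.le_floor.2
          push_cast
          linarith
        · exact Int.le_floor.2 h3.2
      · show (((RingOfIntegers.basis L).repr (b r) i : ℤ) : ℚ) = (integralBasis L).repr (b r : L) i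
        rw [integralBasis_repr_apply]
        rfl
    · rw [hev, ← hb2]
      congr 2
      funext x
      obtain ⟨σ, r⟩ := x
      show ∑ i, σ (integralBasis L i) / q * (algebraMap ℚ ℂ) ((integralBasis L).repr (b (π σ r) : L) i) = σ ((b (π σ r) : L) / q)
      rw [map_div₀, map_natCast]
      have h1 := congrArg σ ((integralBasis L).sum_repr (b (π σ r) : L))
      rw [map_sum] at h1
      rw [← h1, Finset.sum_div]
      refine Finset.sum_congr rfl fun i _ => ?_
      rw [Algebra.smul_def, map_mul]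
      have h2 : σ ((algebraMap ℚ L) ((integralBasis L).repr (b (π σ r) : L) i)) =
          (algebraMap ℚ ℂ) ((integralBasis L).repr (b (π σ r) : L) i) := by simp
      rw [h2]
      ring
  have hEf : E.Finite := Set.Finite.of_finite_image (hZf.subset (Set.image_subset_iff.2 hmap)) hgi.injOn
  refine ⟨hEf, ?_⟩
  have h1 : E.ncard ≤ Z.ncard := Set.ncard_le_ncard_of_injOn g hmap hgi.injOn hZf
  have h2 : (E.ncard : ℝ) ≤ P'.totalDegree * (B.ncard : ℝ) ^ (finrank ℚ L * (n + 1) - 1) := by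
    exact_mod_cast h1.trans hsz
  refine h2.trans ?_
  have h3 : (P'.totalDegree : ℝ) ≤ P.totalDegree := by exact_mod_cast deg_lin F hFd P
  have h4 : (B.ncard : ℝ) ^ (finrank ℚ L * (n + 1) - 1) ≤ (3 * C * T) ^ (finrank ℚ L * (n + 1) - 1) :=
    pow_le_pow_left₀ (by positivity) hBc _
  calc (P'.totalDegree : ℝ) * (B.ncard : ℝ) ^ (finrank ℚ L * (n + 1) - 1) ≤
      P.totalDegree * (3 * C * T) ^ (finrank ℚ L * (n + 1) - 1) :=
        mul_le_mul h3 h4 (by positivity) (by positivity)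
    _ = _ := by rw [mul_pow]; ring

end Pool.Agent.X265.WR
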